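import Pool.Agent.H624R4.Lp
import Pool.Agent.H624R4.P1b
import Pool.Agent.H624R4.P2

set_option autoImplicit false

namespace Pool.Agent.Results.MP_d2370c_gt.CrossPolytopeFlatness

/-- The affine image of the unit ball of `l_p` given by the matrix `T` and the centre `c`:
all `x` with `∑ |(T (x - c))_i| ^ p ≤ 1`. For `p = 1` this is a cross-polytope, for `p = 2` an
ellipsoid. -/
def lpBody {d : ℕ} (p : ℝ) (T : Matrix (Fin d) (Fin d) ℝ) (c : Fin d → ℝ) : Set (Fin d → ℝ) :=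
  {x | ∑ i, |T.mulVec (x - c) i| ^ p ≤ 1}

/-- No integer point lies in the interior of `K`. -/
def LatticeFree {d : ℕ} (K : Set (Fin d → ℝ)) : Prop :=
  ∀ z : Fin d → ℤ, (fun i => (z i : ℝ)) ∉ interior K

/-- The lattice width of `K` is at most `W`: in some nonzero integer direction `y` the values of
`⟨x, y⟩` on `K` spread over a range of length at most `W`. -/
def WidthLE {d : ℕ} (K : Set (Fin d → ℝ)) (W : ℝ) : Prop :=
  ∃ y : Fin d → ℤ, y ≠ 0 ∧ ∀ x ∈ K, ∀ x' ∈ K, ∑ i, (x i - x' i) * (y i : ℝ) ≤ W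

/-- The lattice width of `K` is at least `W`: in every nonzero integer direction the range has
length at least `W`. -/
def WidthGE {d : ℕ} (K : Set (Fin d → ℝ)) (W : ℝ) : Prop :=
  ∀ y : Fin d → ℤ, y ≠ 0 → ∃ x ∈ K, ∃ x' ∈ K, W ≤ ∑ i, (x i - x' i) * (y i : ℝ)

/-- Exact flatness constant of cross-polytopes, with the bound `d` for all `l_p` balls with
`1 ≤ p ≤ 2`, and for all sets between an ellipsoid and a cross-polytope with parallel axes. -/
theorem result (d : ℕ) (hd : 1 ≤ d) :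
    (∀ p : ℝ, 1 ≤ p → p ≤ 2 → ∀ (T : Matrix (Fin d) (Fin d) ℝ) (c : Fin d → ℝ), T.det ≠ 0 →
      LatticeFree (lpBody p T c) → WidthLE (lpBody p T c) d) ∧
    (∃ (T : Matrix (Fin d) (Fin d) ℝ) (c : Fin d → ℝ), T.det ≠ 0 ∧ LatticeFree (lpBody 1 T c) ∧
      WidthGE (lpBody 1 T c) d) ∧
    (∀ (T : Matrix (Fin d) (Fin d) ℝ) (c c' : Fin d → ℝ) (α : Fin d → ℝ) (K : Set (Fin d → ℝ)),
      T.det ≠ 0 → (∀ i, 0 < α i) → (∀ x, ∑ i, (T.mulVec (x - c) i) ^ 2 < 1 → x ∈ K) →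
      (∀ x ∈ K, ∑ i, |T.mulVec (x - c') i| / α i ≤ 1) → LatticeFree K →
      WidthLE K (√(∑ i, α i ^ 2))) := by
  refine ⟨?_, ?_, ?_⟩
  · intro p hp1 hp2 T c hT hfree
    exact H624R4.flat_lp H624R4.taskP1b H624R4.taskP2 d hd p hp1 hp2 T hT c hfree
  · obtain ⟨T, c, h1, h2, h3⟩ := H624R4.sharp d hd
    exact ⟨T, c, h1, h2, h3⟩
  · intro T c c' α K hT hα hin hout hfree
    exact H624R4.flat H624R4.taskP1b H624R4.taskP2 d T hT c c' α hα K hin hout hfree

end Pool.Agent.Results.MP_d2370c_gt.CrossPolytopeFlatness
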